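import Pool.Agent.Helper30.TG.Spec

/-!
# Project TG, part NB: the neighbours of a tight side are sides
-/

set_option autoImplicit false

open Filter Topology

namespace Pool.Agent.Helper94.TG.NB

open Pool.Agent.Helper30.TG
open scoped Classical

variable {ι : Type} {a b : ι → ℝ} {E U : Finset ι}

/-- an affine function without zeros on an interval has constant sign -/
lemma aff_pos {m c t0 t1 t s : ℝ} (h : ∀ r, t0 < r → r < t1 → m * r + c ≠ 0) (ht0 : t0 < t)
    (ht1 : t < t1) (hs0 : t0 < s) (hs1 : s < t1) (hp : 0 < m * t + c) : 0 < m * s + c := by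
  by_contra hc
  rw [not_lt] at hc
  have hc' : m * s + c < 0 := lt_of_le_of_ne hc (h s hs0 hs1)
  set P := m * t + c with hP
  set N := -(m * s + c) with hN
  have hNpos : 0 < N := by rw [hN]; linarith
  have hPN : 0 < P + N := by linarith
  have hr : m * ((s * P + t * N) / (P + N)) + c = 0 := by
    field_simp
    rw [hN, hP]
    ring
  refine h ((s * P + t * N) / (P + N)) ?_ ?_ hr
  · rw [lt_div_iff₀ hPN]
    nlinarith [mul_pos (sub_pos.2 hs0) hp, mul_pos (sub_pos.2 ht0) hNpos]
  · rw [div_lt_iff₀ hPN]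
    nlinarith [mul_pos (sub_pos.2 hs1) hp, mul_pos (sub_pos.2 ht1) hNpos]

lemma ln_sub (k e : ι) (t : ℝ) :
    ln a b k t - ln a b e t = (a k - a e) * t + (b k - b e) := by
  unfold ln; ring

/-- the signs are constant along a segment -/
lemma edg_all {e g h : ι} {t0 t1 t : ℝ} (hT : Tt a b E e g h t0 t1) (h0 : t0 < t) (h1 : t < t1)
    (he : EdgAt a b E U e t) {s : ℝ} (hs0 : t0 < s) (hs1 : s < t1) : EdgAt a b E U e s := by
  obtain ⟨-, -, -, -, -, -, -, -, -, -, hne⟩ := hT
  intro k hk hke
  have hz : ∀ r, t0 < r → r < t1 → (a k - a e) * r + (b k - b e) ≠ 0 := by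
    intro r hr0 hr1 hr
    rw [← ln_sub] at hr
    exact hne k hk hke r hr0 hr1 (by linarith)
  have hz' : ∀ r, t0 < r → r < t1 → -(a k - a e) * r + -(b k - b e) ≠ 0 := by
    intro r hr0 hr1 hr
    exact hz r hr0 hr1 (by linarith)
  obtain ⟨q1, q2⟩ := he k hk hke
  constructor
  · intro hU
    have := aff_pos hz h0 h1 hs0 hs1 (by rw [← ln_sub]; linarith [q1 hU])
    rw [← ln_sub] at this
    linarith
  · intro hU
    have h3 : 0 < -(a k - a e) * t + -(b k - b e) := by
      have := ln_sub (a := a) (b := b) k e t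
      linarith [q2 hU]
    have := aff_pos hz' h0 h1 hs0 hs1 h3
    have h4 := ln_sub (a := a) (b := b) k e s
    linarith

/-- an affine function which is positive on `(t0, t1)` is nonnegative at the ends -/
lemma aff_closure {m c t0 t1 : ℝ} (h01 : t0 < t1) (h : ∀ r, t0 < r → r < t1 → 0 < m * r + c) :
    0 ≤ m * t0 + c ∧ 0 ≤ m * t1 + c := by
  constructor
  · by_contra hc
    rw [not_le] at hc
    have hm := h ((t0 + t1) / 2) (by linarith) (by linarith)
    have hm0 : 0 < m := by
      by_contra hm0
      rw [not_lt] at hm0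
      nlinarith
    have hr1 : t0 < -c / m := by rw [lt_div_iff₀ hm0]; linarith
    have hr2 : -c / m < t1 := by
      rw [div_lt_iff₀ hm0]
      nlinarith
    have := h (-c / m) hr1 hr2
    have h3 : m * (-c / m) + c = 0 := by field_simp; ring
    linarith
  · by_contra hc
    rw [not_le] at hc
    have hm := h ((t0 + t1) / 2) (by linarith) (by linarith)
    have hm0 : m < 0 := by
      by_contra hm0
      rw [not_lt] at hm0
      nlinarith
    have hr1 : t0 < -c / m := by
      rw [lt_div_iff_of_neg hm0]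
      nlinarith
    have hr2 : -c / m < t1 := by
      rw [div_lt_iff_of_neg hm0]
      linarith
    have := h (-c / m) hr1 hr2
    have h3 : m * (-c / m) + c = 0 := by
      have := hm0.ne
      field_simp; ring
    linarith

/-- the inequalities of the other lines are strict at the ends of a tight side -/
lemma cl {e g h : ι} {t0 t1 t : ℝ} (hT : Tt a b E e g h t0 t1) (h0 : t0 < t) (h1 : t < t1)
    (he : EdgAt a b E U e t) :
    (∀ k ∈ E, k ≠ e → k ≠ g → (k ∈ U → ln a b e t0 < ln a b k t0) ∧
      (k ∉ U → ln a b k t0 < ln a b e t0)) ∧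
    ∀ k ∈ E, k ≠ e → k ≠ h → (k ∈ U → ln a b e t1 < ln a b k t1) ∧
      (k ∉ U → ln a b k t1 < ln a b e t1) := by
  have hall := fun s (hs0 : t0 < s) (hs1 : s < t1) => edg_all hT h0 h1 he hs0 hs1
  obtain ⟨-, -, -, -, -, h01, -, -, hl, hr, -⟩ := hT
  have key : ∀ k ∈ E, k ≠ e → (k ∈ U → ln a b e t0 ≤ ln a b k t0 ∧ ln a b e t1 ≤ ln a b k t1) ∧
      (k ∉ U → ln a b k t0 ≤ ln a b e t0 ∧ ln a b k t1 ≤ ln a b e t1) := by
    intro k hk hke
    constructor
    · intro hU
      have h2 := aff_closure (m := a k - a e) (c := b k - b e) h01 (fun r hr0 hr1 => by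
        rw [← ln_sub]
        linarith [(hall r hr0 hr1 k hk hke).1 hU])
      rw [← ln_sub, ← ln_sub] at h2
      exact ⟨by linarith [h2.1], by linarith [h2.2]⟩
    · intro hU
      have h2 := aff_closure (m := a e - a k) (c := b e - b k) h01 (fun r hr0 hr1 => by
        rw [← ln_sub]
        linarith [(hall r hr0 hr1 k hk hke).2 hU])
      rw [← ln_sub, ← ln_sub] at h2
      exact ⟨by linarith [h2.1], by linarith [h2.2]⟩
  constructor
  · intro k hk hke hkg
    obtain ⟨q1, q2⟩ := key k hk hke
    exact ⟨fun hU => lt_of_le_of_ne (q1 hU).1 fun hh => hkg (hl k hk hke hh.symm),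
      fun hU => lt_of_le_of_ne (q2 hU).1 fun hh => hkg (hl k hk hke hh)⟩
  · intro k hk hke hkh
    obtain ⟨q1, q2⟩ := key k hk hke
    exact ⟨fun hU => lt_of_le_of_ne (q1 hU).2 fun hh => hkh (hr k hk hke hh.symm),
      fun hU => lt_of_le_of_ne (q2 hU).2 fun hh => hkh (hr k hk hke hh)⟩

lemma continuous_ln (k : ι) : Continuous fun s => ln a b k s := by
  unfold ln; fun_prop

/-- near the end of a side the line through the end is a side -/
lemma near {e g : ι} {s0 : ℝ} (hge : a g ≠ a e) (h0 : ln a b g s0 = ln a b e s0)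
    (hk : ∀ k ∈ E, k ≠ e → k ≠ g → (k ∈ U → ln a b e s0 < ln a b k s0) ∧
      (k ∉ U → ln a b k s0 < ln a b e s0)) (ε : ℝ) (hε : 0 < ε) :
    ∃ s, |s - s0| < ε ∧ EdgAt a b E U g s := by
  have h1 : ∀ᶠ s in 𝓝 s0, ∀ k ∈ E, k ≠ e → k ≠ g → (k ∈ U → ln a b g s < ln a b k s) ∧
      (k ∉ U → ln a b k s < ln a b g s) := by
    rw [Finset.eventually_all]
    intro k hkE
    by_cases hke : k = e
    · exact Eventually.of_forall fun s h => absurd hke h
    by_cases hkg : k = g
    · exact Eventually.of_forall fun s _ h => absurd hkg h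
    obtain ⟨q1, q2⟩ := hk k hkE hke hkg
    by_cases hU : k ∈ U
    · have h2 : ∀ᶠ s in 𝓝 s0, ln a b g s < ln a b k s :=
        (continuous_ln g).continuousAt.eventually_lt (continuous_ln k).continuousAt
          (by rw [h0]; exact q1 hU)
      filter_upwards [h2] with s hs _ _
      exact ⟨fun _ => hs, fun h => absurd hU h⟩
    · have h2 : ∀ᶠ s in 𝓝 s0, ln a b k s < ln a b g s :=
        (continuous_ln k).continuousAt.eventually_lt (continuous_ln g).continuousAt
          (by rw [h0]; exact q2 hU)
      filter_upwards [h2] with s hs _ _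
      exact ⟨fun h => absurd h hU, fun _ => hs⟩
  obtain ⟨δ, hδ, hδ'⟩ := Metric.eventually_nhds_iff.1 h1
  have hlg : ∀ s, ln a b g s - ln a b e s = (a g - a e) * (s - s0) := by
    intro s
    have := ln_sub (a := a) (b := b) g e s
    have h3 := ln_sub (a := a) (b := b) g e s0
    rw [h0, sub_self] at h3
    linarith
  set η := min δ ε / 2 with hη
  have hη0 : 0 < η := by rw [hη]; positivity
  have hηδ : η < δ := by
    have := min_le_left δ ε
    rw [hη]
    have : 0 < min δ ε := lt_min hδ hε
    linarith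
  have hηε : η < ε := by
    have := min_le_right δ ε
    rw [hη]
    have : 0 < min δ ε := lt_min hδ hε
    linarith
  -- the sign
  have hsgn : ∃ σ : ℝ, |σ| = 1 ∧ (e ∈ U → (a g - a e) * σ < 0) ∧ (e ∉ U → 0 < (a g - a e) * σ) := by
    rcases lt_or_gt_of_ne hge with h | h
    · by_cases hU : e ∈ U
      · exact ⟨1, by norm_num, fun _ => by linarith, fun h' => absurd hU h'⟩
      · exact ⟨-1, by norm_num, fun h' => absurd h' hU, fun _ => by linarith⟩
    · by_cases hU : e ∈ U
      · exact ⟨-1, by norm_num, fun _ => by linarith, fun h' => absurd hU h'⟩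
      · exact ⟨1, by norm_num, fun h' => absurd h' hU, fun _ => by linarith⟩
  obtain ⟨σ, hσ, hσ1, hσ2⟩ := hsgn
  have habs : |s0 + σ * η - s0| = η := by
    rw [add_sub_cancel_left, abs_mul, hσ, one_mul, abs_of_pos hη0]
  refine ⟨s0 + σ * η, by rw [habs]; exact hηε, fun k hkE hkg => ?_⟩
  by_cases hke : k = e
  · subst hke
    have h3 := hlg (s0 + σ * η)
    rw [add_sub_cancel_left] at h3
    constructor
    · intro hU
      have := mul_neg_of_neg_of_pos (hσ1 hU) hη0
      have h4 : (a g - a k) * (σ * η) = (a g - a k) * σ * η := by ring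
      linarith
    · intro hU
      have := mul_pos (hσ2 hU) hη0
      have h4 : (a g - a k) * (σ * η) = (a g - a k) * σ * η := by ring
      linarith
  · exact hδ' (by rw [Real.dist_eq, habs]; exact hηδ) k hkE hke hkg

/-- slopes of lines with a common point are different -/
lemma slope_ne (hD : Dst a b E) {e g : ι} (he : e ∈ E) (hg : g ∈ E) (hne : g ≠ e) {t : ℝ}
    (h : ln a b g t = ln a b e t) : a g ≠ a e := by
  intro haa
  have hb := hD g hg e he hne haa
  apply hb
  unfold ln at h
  rw [haa] at h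
  linarith

lemma ln_diff {e g : ι} {s0 : ℝ} (h0 : ln a b g s0 = ln a b e s0) (s : ℝ) :
    ln a b g s - ln a b e s = (a g - a e) * (s - s0) := by
  have := ln_sub (a := a) (b := b) g e s
  have h3 := ln_sub (a := a) (b := b) g e s0
  rw [h0, sub_self] at h3
  linarith

/-- NB -/
theorem main : S_NB := by
  intro ι a b E U e g h t0 t1 t hD hT h0 h1 he
  have hall := fun s (hs0 : t0 < s) (hs1 : s < t1) => edg_all hT h0 h1 he hs0 hs1
  obtain ⟨c0, c1⟩ := cl hT h0 h1 he
  obtain ⟨heE, hgE, hhE, hge, hhe, h01, eg, eh, -, -, -⟩ := hT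
  have sg := slope_ne hD heE hgE hge eg
  have sh := slope_ne hD heE hhE hhe eh
  have dg := ln_diff eg
  have dh := ln_diff eh
  refine ⟨?_, ?_, ?_, ?_, ?_, sg, sh, hall⟩
  · rintro rfl
    have := dg t1
    rw [eh, sub_self] at this
    rcases mul_eq_zero.1 this.symm with h' | h'
    · exact sg (by linarith)
    · linarith
  · obtain ⟨s, -, hs⟩ := near sg eg c0 1 one_pos
    exact Finset.mem_filter.2 ⟨hgE, s, hs⟩
  · obtain ⟨s, -, hs⟩ := near sh eh c1 1 one_pos
    exact Finset.mem_filter.2 ⟨hhE, s, hs⟩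
  · obtain ⟨q1, q2⟩ := he g hgE hge
    constructor
    · intro hU
      have h2 := q1 hU
      have h3 := dg t
      have h4 : 0 < (a g - a e) * (t - t0) := by linarith
      by_contra hlt
      rw [not_lt] at hlt
      have : (a g - a e) * (t - t0) ≤ 0 := mul_nonpos_of_nonpos_of_nonneg (by linarith) (by linarith)
      linarith
    · intro hlt
      by_contra hU
      have h2 := q2 hU
      have h3 := dg t
      have h4 : 0 < (a g - a e) * (t - t0) := mul_pos (by linarith) (by linarith)
      linarith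
  · obtain ⟨q1, q2⟩ := he h hhE hhe
    constructor
    · intro hU
      have h2 := q1 hU
      have h3 := dh t
      have h4 : 0 < (a h - a e) * (t - t1) := by linarith
      by_contra hlt
      rw [not_lt] at hlt
      have : (a h - a e) * (t - t1) ≤ 0 := mul_nonpos_of_nonneg_of_nonpos (by linarith) (by linarith)
      linarith
    · intro hlt
      by_contra hU
      have h2 := q2 hU
      have h3 := dh t
      have h4 : 0 < (a h - a e) * (t - t1) := mul_pos_of_neg_of_neg (by linarith) (by linarith)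
      linarith

end Pool.Agent.Helper94.TG.NB
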