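import Pool.Agent.Helper94.TG.NB

/-!
# Project TG, part PAIR: of two tight sides with the same neighbours one is narrowing
-/

set_option autoImplicit false

open Filter Topology

namespace Pool.Agent.Helper94.TG.PAIR

open Pool.Agent.Helper30.TG Pool.Agent.Helper94.TG.NB
open scoped Classical

lemma NA_pp {α β : ℝ} (h1 : 0 < α) (h2 : 0 < β) : NA α β ↔ α ≤ β := by
  unfold NA
  constructor
  · rintro (h | ⟨h, -⟩)
    · have := (mul_pos_iff_of_pos_left (mul_pos h1 h2)).1 h
      linarith
    · exact h.le
  · intro h
    rcases h.eq_or_lt with h | h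
    · exact Or.inr ⟨h, h1⟩
    · exact Or.inl (mul_pos (mul_pos h1 h2) (by linarith))

lemma NA_nn {α β : ℝ} (h1 : α < 0) (h2 : β < 0) : NA α β ↔ α < β := by
  unfold NA
  constructor
  · rintro (h | ⟨h, h'⟩)
    · have := (mul_pos_iff_of_pos_left (mul_pos_of_neg_of_neg h1 h2)).1 h
      linarith
    · linarith
  · intro h
    exact Or.inl (mul_pos (mul_pos_of_neg_of_neg h1 h2) (by linarith))

lemma NA_pn {α β : ℝ} (h1 : 0 < α) (h2 : β < 0) : NA α β :=
  Or.inl (mul_pos_of_neg_of_neg (mul_neg_of_pos_of_neg h1 h2) (by linarith))

lemma NA_np {α β : ℝ} (h1 : α < 0) (h2 : 0 < β) : ¬ NA α β := by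
  rintro (h | ⟨h, h'⟩)
  · have h3 := mul_neg_of_neg_of_pos h1 h2
    have h4 : α * β * (β - α) ≤ 0 := mul_nonpos_of_nonpos_of_nonneg h3.le (by linarith)
    linarith
  · linarith

/-- PAIR -/
theorem main : S_PAIR := by
  intro ι a b E U e g h f x y hD hef hTe hTf hxy hin hout
  obtain ⟨t0, t1, t, hT, h0, h1, he⟩ := hTe
  obtain ⟨s0, s1, s, hS, k0, k1, hf⟩ := hTf
  obtain ⟨c0, c1⟩ := cl hT h0 h1 he
  obtain ⟨d0, d1⟩ := cl hS k0 k1 hf
  obtain ⟨-, -, -, ig, ih, sg, sh, -⟩ := NB.main a b E U e g h t0 t1 t hD hT h0 h1 he
  obtain ⟨-, -, -, jx, jy, sx, sy, -⟩ := NB.main a b E U f x y s0 s1 s hD hS k0 k1 hf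
  obtain ⟨heE, hgE, hhE, hge, hhe, -, eg, eh, -, -, -⟩ := hT
  obtain ⟨hfE, hxE, hyE, hxf, hyf, -, ex, ey, -, -, -⟩ := hS
  have lg := ln_diff eg
  have lh := ln_diff eh
  have lx := ln_diff ex
  have ly := ln_diff ey
  unfold Nrw
  rcases hxy with ⟨rfl, rfl⟩ | ⟨rfl, rfl⟩
  · -- the same order
    -- `e` and `f` are not on the same side
    have hside : ¬ (e ∈ U ↔ f ∈ U) := by
      intro hiff
      have a1 := c0 f hfE (Ne.symm hef) (Ne.symm hxf)
      have a2 := d0 e heE hef (Ne.symm hge)
      have b1 := lg s0
      have b2 := lx t0
      by_cases hU : x ∈ U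
      · have p1 : a e < a x := ig.1 hU
        have p2 : a f < a x := jx.1 hU
        by_cases heU : e ∈ U
        · have q1 := a1.1 (hiff.1 heU)
          have q2 := a2.1 heU
          have r1 : (a x - a e) * (s0 - t0) < 0 := by linarith
          have r2 : (a x - a f) * (t0 - s0) < 0 := by linarith
          have r3 := neg_of_mul_neg_right r1 (by linarith)
          have r4 := neg_of_mul_neg_right r2 (by linarith)
          linarith
        · have q1 := a1.2 (fun hh => heU (hiff.2 hh))
          have q2 := a2.2 heU
          have r1 : 0 < (a x - a e) * (s0 - t0) := by linarith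
          have r2 : 0 < (a x - a f) * (t0 - s0) := by linarith
          have r3 := (mul_pos_iff_of_pos_left (by linarith)).1 r1
          have r4 := (mul_pos_iff_of_pos_left (by linarith)).1 r2
          linarith
      · have p1 : a x < a e := lt_of_le_of_ne (not_lt.1 fun hh => hU (ig.2 hh)) sg
        have p2 : a x < a f := lt_of_le_of_ne (not_lt.1 fun hh => hU (jx.2 hh)) sx
        by_cases heU : e ∈ U
        · have q1 := a1.1 (hiff.1 heU)
          have q2 := a2.1 heU
          have r1 : 0 < (a e - a x) * (s0 - t0) := by linarith
          have r2 : 0 < (a f - a x) * (t0 - s0) := by linarith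
          have r3 := (mul_pos_iff_of_pos_left (by linarith)).1 r1
          have r4 := (mul_pos_iff_of_pos_left (by linarith)).1 r2
          linarith
        · have q1 := a1.2 (fun hh => heU (hiff.2 hh))
          have q2 := a2.2 heU
          have r1 : (a e - a x) * (s0 - t0) < 0 := by linarith
          have r2 : (a f - a x) * (t0 - s0) < 0 := by linarith
          have r3 := neg_of_mul_neg_right r1 (by linarith)
          have r4 := neg_of_mul_neg_right r2 (by linarith)
          linarith
    -- the two conditions are equivalent
    have hNA : NA (a x - a e) (a y - a e) ↔ NA (a x - a f) (a y - a f) := by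
      by_cases hx : x ∈ U
      · have p1 : a e < a x := ig.1 hx
        have p2 : a f < a x := jx.1 hx
        by_cases hy : y ∈ U
        · have p3 : a y < a e := ih.1 hy
          have p4 : a y < a f := jy.1 hy
          exact ⟨fun _ => NA_pn (by linarith) (by linarith),
            fun _ => NA_pn (by linarith) (by linarith)⟩
        · have p3 : a e < a y := lt_of_le_of_ne (not_lt.1 fun hh => hy (ih.2 hh)) (Ne.symm sh)
          have p4 : a f < a y := lt_of_le_of_ne (not_lt.1 fun hh => hy (jy.2 hh)) (Ne.symm sy)
          rw [NA_pp (by linarith) (by linarith), NA_pp (by linarith) (by linarith)]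
          constructor <;> intro _ <;> linarith
      · have p1 : a x < a e := lt_of_le_of_ne (not_lt.1 fun hh => hx (ig.2 hh)) sg
        have p2 : a x < a f := lt_of_le_of_ne (not_lt.1 fun hh => hx (jx.2 hh)) sx
        by_cases hy : y ∈ U
        · have p3 : a y < a e := ih.1 hy
          have p4 : a y < a f := jy.1 hy
          rw [NA_nn (by linarith) (by linarith), NA_nn (by linarith) (by linarith)]
          constructor <;> intro _ <;> linarith
        · have p3 : a e < a y := lt_of_le_of_ne (not_lt.1 fun hh => hy (ih.2 hh)) (Ne.symm sh)
          have p4 : a f < a y := lt_of_le_of_ne (not_lt.1 fun hh => hy (jy.2 hh)) (Ne.symm sy)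
          exact ⟨fun hh => absurd hh (NA_np (by linarith) (by linarith)),
            fun hh => absurd hh (NA_np (by linarith) (by linarith))⟩
    by_cases hN : NA (a x - a e) (a y - a e)
    · have hN' := hNA.1 hN
      by_cases heU : e ∈ U
      · right
        exact ⟨fun hfU => absurd ⟨fun _ => hfU, fun _ => heU⟩ hside, fun _ => hN'⟩
      · left
        exact ⟨fun hh => absurd hh heU, fun _ => hN⟩
    · have hN' : ¬ NA (a x - a f) (a y - a f) := fun hh => hN (hNA.2 hh)
      by_cases heU : e ∈ U
      · left
        exact ⟨fun _ => hN, fun hh => absurd heU hh⟩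
      · right
        exact ⟨fun _ => hN', fun hfU => absurd ⟨fun hh => absurd hh heU, fun hh => absurd hh hfU⟩
          hside⟩
  · -- swapped order: `x = h`, `y = g`
    have a0 := c0 f hfE (Ne.symm hef) (Ne.symm hyf)
    have a1 := c1 f hfE (Ne.symm hef) (Ne.symm hxf)
    have b0 := d0 e heE hef (Ne.symm hhe)
    have b1 := d1 e heE hef (Ne.symm hge)
    have l1 := lg s1
    have l2 := ly t0
    have l3 := lh s0
    have l4 := lx t1
    by_cases hy : y ∈ U
    · have p1 : a e < a y := ig.1 hy
      have p2 : a y < a f := jy.1 hy
      by_cases hx : x ∈ U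
      · have p3 : a x < a e := ih.1 hx
        have p4 : a f < a x := jx.1 hx
        -- all in
        have n1 : NA (a y - a e) (a x - a e) := NA_pn (by linarith) (by linarith)
        have n2 : NA (a x - a f) (a y - a f) := NA_pn (by linarith) (by linarith)
        by_cases heU : e ∈ U
        · have hfU : f ∉ U := by
            intro hfU
            rcases hout with hh | hh | hh | hh
            · exact hh heU
            · exact hh hfU
            · exact hh hy
            · exact hh hx
          exact Or.inr ⟨fun hh => absurd hh hfU, fun _ => n2⟩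
        · exact Or.inl ⟨fun hh => absurd hh heU, fun _ => n1⟩
      · -- `g` in, `h` out
        have p3 : a e < a x := lt_of_le_of_ne (not_lt.1 fun hh => hx (ih.2 hh)) (Ne.symm sh)
        have p4 : a x < a f := lt_of_le_of_ne (not_lt.1 fun hh => hx (jx.2 hh)) sx
        have n1 : NA (a y - a e) (a x - a e) ↔ a y ≤ a x := by
          rw [NA_pp (by linarith) (by linarith)]
          constructor <;> intro _ <;> linarith
        have n2 : NA (a x - a f) (a y - a f) ↔ a x < a y := by
          rw [NA_nn (by linarith) (by linarith)]
          constructor <;> intro _ <;> linarith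
        rw [n1, n2]
        by_cases heU : e ∈ U
        · by_cases hfU : f ∈ U
          · rcases lt_or_ge (a x) (a y) with hlt | hge'
            · exact Or.inl ⟨fun _ => not_le.2 hlt, fun hh => absurd heU hh⟩
            · exact Or.inr ⟨fun _ => not_lt.2 hge', fun hh => absurd hfU hh⟩
          · exfalso
            have q1 := b1.1 heU
            have q2 := a0.2 hfU
            have r1 : (a y - a e) * (s1 - t0) < 0 := by linarith
            have r2 : 0 < (a y - a f) * (t0 - s1) := by linarith
            have r3 := neg_of_mul_neg_right r1 (by linarith)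
            have r4 : (a f - a y) * (t0 - s1) < 0 := by linarith
            have r5 := neg_of_mul_neg_right r4 (by linarith)
            linarith
        · by_cases hfU : f ∈ U
          · exfalso
            have q1 := b1.2 heU
            have q2 := a0.1 hfU
            have r1 : 0 < (a y - a e) * (s1 - t0) := by linarith
            have r2 : 0 < (a f - a y) * (t0 - s1) := by linarith
            have r3 := (mul_pos_iff_of_pos_left (by linarith)).1 r1
            have r4 := (mul_pos_iff_of_pos_left (by linarith)).1 r2
            linarith
          · rcases lt_or_ge (a x) (a y) with hlt | hge'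
            · exact Or.inr ⟨fun hh => absurd hh hfU, fun _ => hlt⟩
            · exact Or.inl ⟨fun hh => absurd hh heU, fun _ => hge'⟩
    · have p1 : a y < a e := lt_of_le_of_ne (not_lt.1 fun hh => hy (ig.2 hh)) sg
      have p2 : a f < a y := lt_of_le_of_ne (not_lt.1 fun hh => hy (jy.2 hh)) (Ne.symm sy)
      by_cases hx : x ∈ U
      · have p3 : a x < a e := ih.1 hx
        have p4 : a f < a x := jx.1 hx
        have n1 : NA (a y - a e) (a x - a e) ↔ a y < a x := by
          rw [NA_nn (by linarith) (by linarith)]
          constructor <;> intro _ <;> linarith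
        have n2 : NA (a x - a f) (a y - a f) ↔ a x ≤ a y := by
          rw [NA_pp (by linarith) (by linarith)]
          constructor <;> intro _ <;> linarith
        rw [n1, n2]
        by_cases heU : e ∈ U
        · by_cases hfU : f ∈ U
          · rcases lt_or_ge (a y) (a x) with hlt | hge'
            · exact Or.inr ⟨fun _ => not_le.2 hlt, fun hh => absurd hfU hh⟩
            · exact Or.inl ⟨fun _ => not_lt.2 hge', fun hh => absurd heU hh⟩
          · exfalso
            have q1 := b0.1 heU
            have q2 := a1.2 hfU
            have r1 : 0 < (a e - a x) * (s0 - t1) := by linarith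
            have r2 : 0 < (a x - a f) * (t1 - s0) := by linarith
            have r3 := (mul_pos_iff_of_pos_left (by linarith)).1 r1
            have r4 := (mul_pos_iff_of_pos_left (by linarith)).1 r2
            linarith
        · by_cases hfU : f ∈ U
          · exfalso
            have q1 := b0.2 heU
            have q2 := a1.1 hfU
            have r1 : (a e - a x) * (s0 - t1) < 0 := by linarith
            have r2 : (a x - a f) * (t1 - s0) < 0 := by linarith
            have r3 := neg_of_mul_neg_right r1 (by linarith)
            have r4 := neg_of_mul_neg_right r2 (by linarith)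
            linarith
          · rcases lt_or_ge (a y) (a x) with hlt | hge'
            · exact Or.inl ⟨fun hh => absurd hh heU, fun _ => hlt⟩
            · exact Or.inr ⟨fun hh => absurd hh hfU, fun _ => hge'⟩
      · -- both out
        have p3 : a e < a x := lt_of_le_of_ne (not_lt.1 fun hh => hx (ih.2 hh)) (Ne.symm sh)
        have p4 : a x < a f := lt_of_le_of_ne (not_lt.1 fun hh => hx (jx.2 hh)) sx
        have n1 : ¬ NA (a y - a e) (a x - a e) := NA_np (by linarith) (by linarith)
        have n2 : ¬ NA (a x - a f) (a y - a f) := NA_np (by linarith) (by linarith)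
        by_cases heU : e ∈ U
        · exact Or.inl ⟨fun _ => n1, fun hh => absurd heU hh⟩
        · have hfU : f ∈ U := by
            rcases hin with hh | hh | hh | hh
            · exact absurd hh heU
            · exact hh
            · exact absurd hh hy
            · exact absurd hh hx
          exact Or.inr ⟨fun _ => n2, fun hh => absurd hfU hh⟩

end Pool.Agent.Helper94.TG.PAIR
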