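import Pool.Agent.Helper94.TG.NB

/-!
# Project TG, part SYM: the neighbour relation between tight sides is symmetric
-/

set_option autoImplicit false

open Filter Topology

namespace Pool.Agent.Helper94.TG.SYM

open Pool.Agent.Helper30.TG Pool.Agent.Helper94.TG.NB
open scoped Classical

variable {ι : Type} {a b : ι → ℝ} {E U : Finset ι}

/-- `EdgAt` is a convex condition -/
lemma conv {g : ι} {r s u : ℝ} (hr : EdgAt a b E U g r) (hs : EdgAt a b E U g s) (h1 : r ≤ u)
    (h2 : u ≤ s) : EdgAt a b E U g u := by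
  intro k hk hkg
  obtain ⟨p1, p2⟩ := hr k hk hkg
  obtain ⟨q1, q2⟩ := hs k hk hkg
  have dr := ln_sub (a := a) (b := b) k g r
  have ds := ln_sub (a := a) (b := b) k g s
  have du := ln_sub (a := a) (b := b) k g u
  constructor
  · intro hU
    have e1 := p1 hU
    have e2 := q1 hU
    by_contra hc
    rw [not_lt] at hc
    rcases le_total 0 (a k - a g) with hm | hm
    · nlinarith [mul_nonneg hm (sub_nonneg.2 h1)]
    · nlinarith [mul_nonneg (neg_nonneg.2 hm) (sub_nonneg.2 h2)]
  · intro hU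
    have e1 := p2 hU
    have e2 := q2 hU
    by_contra hc
    rw [not_lt] at hc
    rcases le_total 0 (a k - a g) with hm | hm
    · nlinarith [mul_nonneg hm (sub_nonneg.2 h2)]
    · nlinarith [mul_nonneg (neg_nonneg.2 hm) (sub_nonneg.2 h1)]

/-- a point of another line is not in the side -/
lemma not_edg {g x : ι} {s : ℝ} (hx : x ∈ E) (hxg : x ≠ g) (h : ln a b x s = ln a b g s) :
    ¬ EdgAt a b E U g s := by
  intro hE
  obtain ⟨q1, q2⟩ := hE x hx hxg
  by_cases hU : x ∈ U
  · exact absurd h (q1 hU).ne'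
  · exact absurd h (q2 hU).ne

/-- the key step -/
lemma key {e g x y : ι} {t0 : ℝ} (he : e ∈ E) (hge : g ≠ e)
    (h0 : ln a b g t0 = ln a b e t0)
    (hnear : ∀ ε : ℝ, 0 < ε → ∃ s, |s - t0| < ε ∧ EdgAt a b E U g s)
    (hT : Tig a b E U g x y) : e = x ∨ e = y := by
  obtain ⟨s0, s1, s, hT, hs0, hs1, hE⟩ := hT
  have hall := fun r (hr0 : s0 < r) (hr1 : r < s1) => edg_all hT hs0 hs1 hE hr0 hr1
  obtain ⟨-, hx, hy, hxg, hyg, h01, ex, ey, ux, uy, -⟩ := hT
  have n0 : ¬ EdgAt a b E U g s0 := not_edg hx hxg ex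
  have n1 : ¬ EdgAt a b E U g s1 := not_edg hy hyg ey
  have hin : ∀ r, EdgAt a b E U g r → s0 < r ∧ r < s1 := by
    intro r hr
    constructor
    · by_contra hc
      rw [not_lt] at hc
      exact n0 (conv hr hE hc hs0.le)
    · by_contra hc
      rw [not_lt] at hc
      exact n1 (conv hE hr hs1.le hc)
  have l1 : s0 ≤ t0 := by
    by_contra hc
    rw [not_le] at hc
    obtain ⟨r, hr, hr'⟩ := hnear (s0 - t0) (by linarith)
    have := (hin r hr').1
    rw [abs_lt] at hr
    linarith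
  have l2 : t0 ≤ s1 := by
    by_contra hc
    rw [not_le] at hc
    obtain ⟨r, hr, hr'⟩ := hnear (t0 - s1) (by linarith)
    have := (hin r hr').2
    rw [abs_lt] at hr
    linarith
  have nt : ¬ EdgAt a b E U g t0 := not_edg he (Ne.symm hge) h0.symm
  rcases l1.eq_or_lt with h | h
  · subst h
    exact Or.inl (ux e he (Ne.symm hge) h0.symm)
  · rcases l2.eq_or_lt with h' | h'
    · subst h'
      exact Or.inr (uy e he (Ne.symm hge) h0.symm)
    · exact absurd (hall t0 h h') nt

/-- SYM -/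
theorem main : S_SYM := by
  intro ι a b E U e g h x y hD hTe
  obtain ⟨t0, t1, t, hT, h0, h1, he⟩ := hTe
  obtain ⟨c0, c1⟩ := cl hT h0 h1 he
  obtain ⟨heE, hgE, hhE, hge, hhe, h01, eg, eh, -, -, -⟩ := hT
  have sg := slope_ne hD heE hgE hge eg
  have sh := slope_ne hD heE hhE hhe eh
  exact ⟨fun hT => key heE hge eg (near sg eg c0) hT, fun hT => key heE hhe eh (near sh eh c1) hT⟩

end Pool.Agent.Helper94.TG.SYM
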